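import Pool.Agent.R596.SqMain

/-!
# It is consistent with ZF that the real line is sequential and the space of irrational numbers is
not

There is a countable transitive model of ZF in which every sequentially closed set of real numbers
is closed, but some sequentially closed set of irrational numbers is not closed in the space of
irrational numbers. The definitions are in `Pool.Agent.R596.SqDefs`.
-/

set_option autoImplicit false

namespace Pool.Agent.Results.MP_7aa9af_lc.RealsNotIrrationals

open Pool.Agent.W868 Pool.Agent.R596Sq

theorem result : ∃ M : Set ZFSet.{0}, M.Countable ∧ IsZF M ∧ Sequential M Set.univ ∧
    ¬ Sequential M {x | Irrational x} :=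
  Pool.Agent.R596.SQ.main

end Pool.Agent.Results.MP_7aa9af_lc.RealsNotIrrationals
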